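import Mathlib
import Pool.Agent.J4.H70.CC.CIFin

/-!
# The `χ_y`-genus of the motivic zeta function of generic functions on smooth complete intersections

Let `V = {l_1 = ⋯ = l_κ = 0} ⊂ 𝔸 ^ (n + κ)` be a complete intersection over `k ⊂ ℂ` which is smooth of
dimension `n` at the origin, with the coordinates `x_1, …, x_n` (that is `det (∂ l_i / ∂ z_j)(0) ≠ 0`), and
let `Φ|_V` be a regular function on `V`, `Φ(0) = 0`. The polynomials `Φ` and `l_1, …, l_κ` in `x`, `z` are
generic for their Newton polyhedra: `∑ a_j X ^ (m_j) + H`, where `H` is an ARBITRARY polynomial over a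
subfield `F` of `k` with exponents in the Newton polyhedron, and `g(a) ≠ 0` for the other
coefficients (for instance those at the vertices) and a certain nonzero polynomial `g` over `F`. All
systems of Newton polyhedra are allowed; only the linear terms `z_i` must not occur in `Φ`.

We prove the motivic monodromy conjecture for `(V, Φ|_V, 0)` in its strong form after the specialisation
of the Grothendieck ring to the `χ_y`-genus: the poles of `φ(Z_{Φ|V, 0}(T))` are given by negative ROOTS
of the Bernstein-Sato polynomial of `Φ|_V`. The earlier result (`ChiYGenus`, starting library) is the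
case `κ = 0`, that is polynomials which are generic for one Newton polyhedron in given coordinates.

For `κ ≥ 1` the function `Φ|_V`, as a power series `f(x)`, is in general degenerate with respect to its
Newton polyhedron, in all coordinates. If `l_i = z_i - p_i(x)` it is an arbitrary composition
`Φ(x, p_1(x), …, p_κ(x))` (also with `p_i(x, z_1, …, z_{i - 1})`), for instance
`x ^ u ∏_i p_i ^ (e_i)` or `(x_2 ^ 2 - x_1 ^ 3) ^ 2 - x_1 ^ 5 x_2`; it is not assumed to be reduced or to have
isolated singularities.

Method. (1) Jets of order `N` see `f` only modulo terms of order `> N`. With the inverse function theorem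
modulo `𝔪 ^ (N + 1)` the classes of the jets of `V` are those of the jets of a polynomial `f_N(x)`, and
`f_N(x) + ∑ y_i z_i` and `G = Φ + ∑ y_i l_i` have the same jets at the origin. (2) At the origin, in
`K₀(Var)[𝕃⁻¹]`, `𝕃 ^ 3 (1 - 𝕃⁻¹ T) Z_f(T) = (𝕃 ^ 2 + 𝕃) U_1(𝕃 T) - U_2(𝕃 ^ 2 T)`,
`U_1 = (1 - 𝕃⁻¹ T) Z_{f + y z}(T)`, `U_2 = (1 - 𝕃⁻¹ T) Z_{f + y z + y' z'}(T)`; so `Z_{Φ|V}` is a combination
of `Z_G` and `Z_{G + y z}`. (3) The theorem for the generic polynomials `G` and `G + c y z` (`ChiYGenus`) is
refined: for generic coefficients the poles of the `χ_y`-genus of `(1 - 𝕃⁻¹ T) Z` are roots of every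
`c(s)` with `(s + 1) c(s)` in the Bernstein-Sato ideal. (4) A functional equation of `Φ|_V` with
`(s + 1) c(s)` gives one of `G` with `(s + 1) c(s + κ)`. (5) The pole is negative: else a weight
vector shows that `Φ|_V = 0`.
-/

set_option autoImplicit false

namespace Pool.Agent.Results.MP_b91a16_ag.ChiYCompleteIntersections

open MvPolynomial Pool.Agent.J4.H70.CC

/-- **The motivic monodromy conjecture (Bernstein-Sato form) for the `χ_y`-genus: generic functions on
smooth complete intersections.**

Given are exponents `m_j` of monomials in `x_1, …, x_n, z_1, …, z_κ` in groups `π j ∈ {0, …, κ}` and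
polynomials `H_0, …, H_κ` over `F`. `tupK π m a H i` is the polynomial `∑_{π j = i} a_j X ^ (m_j) + H_i`;
it is `Φ` for `i = 0` and `l_i` for `i ≥ 1`. `NPQ π m i w` says that `w` is in the Newton polyhedron
(convex hull plus positive orthant) of the `m_j` with `π j = i` or `π j = 0`. `jacZ l` is the matrix
`(∂ l_i / ∂ z_j)(0)`.

`StrongV S Φ l`: for the power series `f(x)` over `ℂ` with `Φ = f(x) + ∑ q_i l_i` for some power series `q_i`,
that is the function `Φ|_V` in the coordinates `x` of `V = {l = 0}`, `f ≠ 0`, every `p.1 / p.2`, `p ∈ S`, is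
negative and a root of all `b` with `b(s) f ^ s = P(s) f ^ (s + 1)`, `P(s)` a differential operator
with power series as coefficients, polynomial in `s` (so of the local and the global
Bernstein-Sato polynomials of `Φ|_V`); and for all fields `K ⊃ k` and all ring homomorphisms
`φ : K₀(Var_K)[𝕃⁻¹] → ℚ(u)` with the `χ_y`-genus property `ChiY φ` (`φ(𝕃) = u` and the formula of Danilov and
Khovanskii for nondegenerate hypersurfaces in tori, as in `ChiYGenus`) the image under `φ` of the local
motivic zeta function `zetaV n Φ l = ∑_{N ≥ 1} [X_{N,1,0}] 𝕃 ^ (-n N) T ^ N` of `Φ|_V` at the origin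
(`JetV Φ l N`: the jets `γ` of order `N` at the origin of `V` with `Φ(γ) = t ^ N`) is in the ring
`ratR uX S` generated over `ℚ(u)` by `T` and the `1 / (1 - u ^ a T ^ b)`, `(a, b) ∈ S`. -/
theorem result (F : Type) [Field F] [Algebra F ℂ] {r n κ : ℕ} (hr : 0 < r)
    (π : Fin r → Fin (κ + 1)) (m : Fin r → Fin (n + κ) → ℕ)
    (hinj : ∀ j j', π j = π j' → m j = m j' → j = j') (hm : ∀ j, m j ≠ 0)
    (H : Fin (κ + 1) → MvPolynomial (Fin (n + κ)) F)
    (hH : ∀ i, ∀ w ∈ (H i).support, NPQ π m i w)
    (hvH : ∀ i, ∀ w ∈ (H i).support, ∀ j, π j = i → ¬ ∀ x, w x = m j x) :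
    ∃ (g : MvPolynomial (Fin r) F) (S : Finset (ℤ × ℤ)), g ≠ 0 ∧ (∀ p ∈ S, 0 < p.2) ∧
      ∀ (k : Type) [Field k] [Algebra F k] [Algebra k ℂ] [IsScalarTower F k ℂ] (a : Fin r → k),
        aeval a g ≠ 0 → (jacZ fun i : Fin κ => tupK π m a H i.succ).det ≠ 0 →
        (∀ i : Fin κ, coeff (Finsupp.single (Fin.natAdd n i) 1) (tupK π m a H 0) = 0) →
        StrongV S (tupK π m a H 0) fun i => tupK π m a H i.succ :=
  ci hr π m hinj hm H hH hvH

end Pool.Agent.Results.MP_b91a16_ag.ChiYCompleteIntersections
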