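import Pool.Agent.J4.H25.MC.Fin

/-!
# The motivic monodromy conjecture is true for all polynomials if it is true for cubic polynomials

Let `k ⊂ ℂ` be a field. We consider polynomials `f` over `k`, as functions on affine spaces, and their
local motivic zeta functions `Z_{f,x}(T) ∈ 𝓜_K[[T]]` at all points `x` with coordinates in a field
`K ⊃ k`, and three forms of the conjecture:

* (MC) `Z_{f,x}(T) ∈ 𝓜_K[T, 1 / (1 - 𝕃 ^ a T ^ b)]_{(a, b) ∈ S}` for a finite set `S`, where
  `exp(2 π i a / b)` is an eigenvalue of the monodromy of `f` (for some integer `m` the number `a / b - m`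
  is a root of `b_f`) for all `(a, b) ∈ S`;
* (Reduced) the same for `(1 - 𝕃⁻¹ T) Z_{f,x}(T)`, where `a / b` is a root of the reduced Bernstein-Sato
  polynomial `b_f(s) / (s + 1)`; this implies Q1 for `f` and `x`;
* (Strong, in `R`) Q1 for the image of `Z_{f,x}(T)` in `R[[T]]`, for a ring homomorphism `ψ : 𝓜_K → R` such
  that all the `ψ(𝕃) ^ i - 1`, `i ≥ 1`, are invertible; for example the localisation
  `𝓜_K[1 / (𝕃 ^ i - 1)]`, or the Hodge-Deligne polynomials with coefficients in `ℚ(u, v)`.

We prove that each of the three forms is true for all polynomials in any number of variables if it is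
true for all polynomials of degree at most `3`. More precisely, for every `f ∈ k[x_1, …, x_n]` there
are `κ` and an automorphism `φ` of the algebra `k[x, y_1, z_1, …, y_κ, z_κ]` such that
`G = φ(f + y_1 z_1 + ⋯ + y_κ z_κ)` has degree at most `3`; and the first two forms are true for `f` at
`x` if they are true for the two polynomials `G` and `G + y z` at one point each, the image `P` of
`(x, 0)` and `(P, 0, 0)`; the third form is true for `f` at `x` if it is true for `G` and for
`G + y z`, `G + y z + y' z'` and `G + y z + y' z' + y'' z''` at the corresponding points.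

Method. (1) If `A B` is a monomial of `f` of degree `> 3`, `deg A, deg B < deg (A B)`, then
`(y + A) (z - B) = y z - y B + A z - A B`, so an automorphism replaces `f + y z` by
`f - A B + y z + A z - y B`. (2) The pointed version of the identity of the starting result
`StablySparse`: for `f(x) = 0`,
`𝕃 ^ 3 (1 - 𝕃⁻¹ T) Z_{f,x}(T) = (𝕃 ^ 2 + 𝕃) U_1(𝕃 T) - U_2(𝕃 ^ 2 T)`,
`U_1 = (1 - 𝕃⁻¹ T) Z_{f + y z,(x,0)}(T)`, `U_2 = (1 - 𝕃⁻¹ T) Z_{f + y z + y' z',(x,0)}(T)`; here the class of
the jets of `f + y z` with origin `y = z = 0` is computed. Neither a resolution nor division by `𝕃 - 1` is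
used. (3) A functional equation for `f` with `(s + 1) c(s)` gives one for `f + y z` with
`(s + 1) c(s + 1)`, so the roots are shifted as the poles. (4) The only candidate pole which is
lost is `-1`: it is a root of `b_{f + ∑ y_i z_i}` for all `κ`, but `κ - 1` is not a root of `b_f`. In the form
(MC) it does no harm. In the third form we use four consecutive `κ`: the recursion gives two
expressions for `(1 - 𝕃⁻¹ T) Z_{f,x}(T)`, with the superfluous denominators `1 - 𝕃 ^ (m b) T ^ b`,
`m = κ - 1, κ`, and `m = κ + 1, κ + 2`. If the `𝕃 ^ i - 1` are invertible, these are comaximal, so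
there are none.
-/

set_option autoImplicit false

namespace Pool.Agent.Results.MP_b91a16_ag.CubicReduction

open MvPolynomial Pool.Agent.W428.MOT
open Pool.Agent.H628R4.TP (IsBFunction)
open Pool.Agent.Y229.MS (addyz itr fst')
open Pool.Agent.J4.H25.MC (mvk ext0 xitr rat LR)

section
variable {k : Type} [Field k] [Algebra k ℂ] {n : ℕ}

/-- `b > 0` and `a / b` is a root of the Bernstein-Sato polynomial of `f` (that is, of all `b(s)` with
`b(s) f ^ s = P(s) f ^ (s + 1)`, `P(s)` a differential operator in the Weyl algebra, polynomial in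
`s`). -/
def Root (f : MvPolynomial (Fin n) k) (p : ℤ × ℤ) : Prop :=
  0 < p.2 ∧ ∀ b : Polynomial ℂ, IsBFunction (map (algebraMap k ℂ) f) b →
    b.eval ((p.1 : ℂ) / p.2) = 0

/-- `b > 0` and `a / b - m` is a root of the Bernstein-Sato polynomial of `f` for an integer `m`. By
the theorem of Malgrange and Kashiwara this says that `exp(2 π i a / b)` is an eigenvalue of the local
monodromy of `f` at some point of `{f = 0}`. -/
def Eigen (f : MvPolynomial (Fin n) k) (p : ℤ × ℤ) : Prop :=
  0 < p.2 ∧ ∀ b : Polynomial ℂ, IsBFunction (map (algebraMap k ℂ) f) b →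
    ∃ m : ℤ, b.eval ((p.1 : ℂ) / p.2 - m) = 0

/-- `b > 0` and `a / b` is a root of the reduced Bernstein-Sato polynomial `b_f(s) / (s + 1)`. -/
def RedRoot (f : MvPolynomial (Fin n) k) (p : ℤ × ℤ) : Prop :=
  0 < p.2 ∧ ∀ c : Polynomial ℂ, IsBFunction (map (algebraMap k ℂ) f) ((Polynomial.X + 1) * c) →
    c.eval ((p.1 : ℂ) / p.2) = 0

/-- The motivic monodromy conjecture (form with eigenvalues of the monodromy) for `f` at the point `x`
over `K`. -/
def MC (f : MvPolynomial (Fin n) k) (K : Type) [Field K] [Algebra k K] (x : Fin n → K) : Prop :=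
  ∃ S : Finset (ℤ × ℤ), (∀ p ∈ S, Eigen f p) ∧ zeta (map (algebraMap k K) f) x ∈ ratRing K S

/-- Q1 (the form with roots of the Bernstein-Sato polynomial) for `f` at the point `x` over `K`. -/
def StrongMC (f : MvPolynomial (Fin n) k) (K : Type) [Field K] [Algebra k K] (x : Fin n → K) :
    Prop :=
  ∃ S : Finset (ℤ × ℤ), (∀ p ∈ S, Root f p) ∧ zeta (map (algebraMap k K) f) x ∈ ratRing K S

/-- The same for `(1 - 𝕃⁻¹ T) Z_{f,x}(T)` and the reduced Bernstein-Sato polynomial of `f`. -/
def ReducedMC (f : MvPolynomial (Fin n) k) (K : Type) [Field K] [Algebra k K] (x : Fin n → K) :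
    Prop :=
  ∃ S : Finset (ℤ × ℤ), (∀ p ∈ S, RedRoot f p) ∧
    (1 - PowerSeries.C (((Lu K)⁻¹ : (MK K)ˣ) : MK K) * PowerSeries.X) *
      zeta (map (algebraMap k K) f) x ∈ ratRing K S

/-- Q1 for the image of `Z_{f,x}(T)` in `R[[T]]`; `rat (LR ψ) S` is the subring of `R[[T]]` generated over
`R` by `T` and the `1 / (1 - ψ(𝕃) ^ a T ^ b)`, `(a, b) ∈ S`. -/
def StrongMCIn (f : MvPolynomial (Fin n) k) (K : Type) [Field K] [Algebra k K] {R : Type}
    [CommRing R] (ψ : MK K →+* R) (x : Fin n → K) : Prop :=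
  ∃ S : Finset (ℤ × ℤ), (∀ p ∈ S, Root f p) ∧
    PowerSeries.map ψ (zeta (map (algebraMap k K) f) x) ∈ rat (LR ψ) S

end

/-- **The motivic monodromy conjecture for all polynomials follows from the conjecture for cubic
polynomials.**

Notation: `addyz f` is the polynomial `f + y z` in two more variables and
`itr f κ = f + y_1 z_1 + ⋯ + y_κ z_κ`; `ext0 P` is the point `(P, 0, 0)` and `xitr x κ = (x, 0, …, 0)`;
`mvk K φ P` is the image of the point `P` over `K` under the isomorphism given by `φ`, that is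
`(φ g)(mvk K φ P) = g(P)` for all `g`.

First part: the statement for a single polynomial `f`. Second part: the equivalences for all
polynomials over `k` and all points over `K` (the implication from right to left is trivial). -/
theorem result (k : Type) [Field k] [Algebra k ℂ] :
    (∀ (n : ℕ) (f : MvPolynomial (Fin n) k),
      ∃ (κ : ℕ) (φ : MvPolynomial (Fin (n + 2 * κ)) k ≃ₐ[k] MvPolynomial (Fin (n + 2 * κ)) k),
        (φ (itr f κ)).totalDegree ≤ 3 ∧
        ∀ (K : Type) [Field K] [Algebra k K] (x : Fin n → K),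
          (MC (φ (itr f κ)) K (mvk K φ (xitr x κ)) →
            MC (addyz (φ (itr f κ))) K (ext0 (mvk K φ (xitr x κ))) → MC f K x) ∧
          (ReducedMC (φ (itr f κ)) K (mvk K φ (xitr x κ)) →
            ReducedMC (addyz (φ (itr f κ))) K (ext0 (mvk K φ (xitr x κ))) → ReducedMC f K x) ∧
          ∀ (R : Type) [CommRing R] (ψ : MK K →+* R),
            (∀ i : ℕ, 1 ≤ i → IsUnit (ψ ((Lu K : (MK K)ˣ) : MK K) ^ i - 1)) →
            (∀ i < 4, StrongMCIn (itr (φ (itr f κ)) i) K ψ (xitr (mvk K φ (xitr x κ)) i)) →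
            StrongMCIn f K ψ x) ∧
    ∀ (K : Type) [Field K] [Algebra k K],
      ((∀ (n : ℕ) (f : MvPolynomial (Fin n) k), f.totalDegree ≤ 3 → ∀ x : Fin n → K, MC f K x) ↔
        ∀ (n : ℕ) (f : MvPolynomial (Fin n) k) (x : Fin n → K), MC f K x) ∧
      ((∀ (n : ℕ) (f : MvPolynomial (Fin n) k), f.totalDegree ≤ 3 →
          ∀ x : Fin n → K, ReducedMC f K x) ↔
        ∀ (n : ℕ) (f : MvPolynomial (Fin n) k) (x : Fin n → K), ReducedMC f K x) ∧
      (∀ (n : ℕ) (f : MvPolynomial (Fin n) k) (x : Fin n → K),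
        ReducedMC f K x → StrongMC f K x) ∧
      ∀ (R : Type) [CommRing R] (ψ : MK K →+* R),
        (∀ i : ℕ, 1 ≤ i → IsUnit (ψ ((Lu K : (MK K)ˣ) : MK K) ^ i - 1)) →
        ((∀ (n : ℕ) (f : MvPolynomial (Fin n) k), f.totalDegree ≤ 3 →
            ∀ x : Fin n → K, StrongMCIn f K ψ x) ↔
          ∀ (n : ℕ) (f : MvPolynomial (Fin n) k) (x : Fin n → K), StrongMCIn f K ψ x) := by
  refine ⟨?_, ?_⟩
  · intro n f
    obtain ⟨κ, φ, hφ, h⟩ := Pool.Agent.J4.H25.MC.every f
    exact ⟨κ, φ, hφ, fun K _ _ x => ⟨(h K x).1, (h K x).2.1, fun R _ ψ hψ h4 =>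
      (h K x).2.2 R ψ hψ h4⟩⟩
  · intro K _ _
    refine ⟨⟨fun h n f x => ?_, fun h n f _ x => h n f x⟩,
      ⟨fun h n f x => ?_, fun h n f _ x => h n f x⟩, fun n f x h => ?_, fun R _ ψ hψ =>
      ⟨fun h n f x => ?_, fun h n f _ x => h n f x⟩⟩
    · exact Pool.Agent.J4.H25.MC.all_wk h f x
    · exact Pool.Agent.J4.H25.MC.all_red h f x
    · exact Pool.Agent.J4.H25.MC.red_strong h
    · exact Pool.Agent.J4.H25.MC.all_loc hψ h f x

end Pool.Agent.Results.MP_b91a16_ag.CubicReduction
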