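import Mathlib
import Pool.Agent.J4.H70.CM2.Fin

/-!
# The motivic zeta function of generic functions on smooth complete intersections

Let `V = {l_1 = ⋯ = l_κ = 0} ⊂ 𝔸 ^ (n + κ)` be a complete intersection over `k ⊂ ℂ` which is smooth of
dimension `n` at the origin, with the coordinates `x_1, …, x_n` (that is `det (∂ l_i / ∂ z_j)(0) ≠ 0`), and
let `Φ|_V` be a regular function on `V`, `Φ(0) = 0`. The polynomials `Φ` and `l_1, …, l_κ` in `x`, `z` are
generic for their Newton polyhedra: `∑ a_j X ^ (m_j) + H`, where `H` is an ARBITRARY polynomial over a
subfield `F` of `k` with exponents in the Newton polyhedron, and `g(a) ≠ 0` for the other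
coefficients (those at the vertices are enough) and a certain nonzero polynomial `g` over `F`. All
systems of Newton polyhedra are allowed; only the linear terms `z_i` must not occur in `Φ`.

We consider the motivic zeta function of Denef and Loeser of `Φ|_V` at the origin itself, with
coefficients in `K₀(Var)[𝕃⁻¹]` (not a specialisation), and prove that it lies in the ring generated
by `T` and the `1 / (1 - 𝕃 ^ a T ^ b)` with `a < 0 < b` and `a / b` a ROOT of the Bernstein-Sato polynomial of
`Φ|_V` (Q1), if there are no exceptional candidate poles; in general all candidate poles except the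
exceptional ones are such roots.

Exceptional candidate poles `κ - σ ≠ -1` are rare (in random examples with `n = 3`, `κ = 1` they occur for
about one system of Newton polyhedra in a hundred; for `n = 2` we know none). There must be
* a cone of the normal fan of the Newton polyhedron of `G = Φ + ∑ y_i l_i`, all rays of which have the
  level `σ = |a| / N_a`, such that the monomials of its face are affinely dependent and the facets of its
  rays are not all B1 in a common direction, nor all B1 in directions in a set `Y` of variables in which
  `G` has degree one (for instance the `y_i`); and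
* no facet of this level which contains a simplex which is not B1, a suitable circuit or a suitable
  point with coordinates which are not negative integers.

For `κ ≥ 1` the function `Φ|_V`, as a power series `f(x)`, is in general degenerate with respect to its
Newton polyhedron, in all coordinates. If `l_i = z_i - p_i(x)` it is an arbitrary composition
`Φ(x, p_1(x), …, p_κ(x))` (also with `p_i(x, z_1, …, z_{i - 1})`), for instance `x ^ u ∏_i p_i ^ (e_i)` or
`(x_2 ^ 2 - x_1 ^ 3) ^ 2 - x_1 ^ 5 x_2 + x_3 ^ 7`; it is not assumed to be reduced or to have isolated
singularities. Related theorems in the starting library: the local topological zeta functions of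
the same functions (`GenericCompleteIntersections`, `MP_6163c8_ag`), compositions with affinely
independent exponents (`StablySparse`), nondegenerate polynomials with simplicial or B1 facets
(`SimplicialOrB1Facets`).

Method. (1) `(1 - 𝕃⁻¹ T) Z_{Φ|V}` is a combination of the functions `(1 - 𝕃⁻¹ T) Z_G` and
`(1 - 𝕃⁻¹ T) Z_{G + c y z}` at the origin after `T ↦ 𝕃 ^ i T` (as in `ChiYCompleteIntersections`). (2) The
criterion of the starting library (algebraic relation from the functional equation, restricted to the
points of a toric arrangement given by pairs of sets of coordinates and vertices) is reformulated as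
a condition on the cones of the normal fan of the vertices `m_j` only, without any condition on
`H`, and shown to be inherited by `G + c y z` at the level `σ + 1`; hence the factors
`1 - 𝕃 ^ a T ^ b` of a level cancel in both zeta functions if the level is neither a root nor exceptional.
(3) A functional equation of `Φ|_V` with `(s + 1) c(s)` gives one of `G` with `(s + 1) c(s + κ)` and one of
`G + c y z` with `(s + 1) c(s + κ + 1)`. (4) The candidate poles are negative: else a weight vector
shows that `Φ|_V = 0`.
-/

set_option autoImplicit false

namespace Pool.Agent.Results.MP_b91a16_ag.MotivicCompleteIntersections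

open MvPolynomial Pool.Agent.J4.H70.CC Pool.Agent.J4.H70.CM2

/-- **The motivic monodromy conjecture (Bernstein-Sato form) for generic functions on smooth
complete intersections, outside the exceptional levels.**

Given are exponents `m_j` of monomials in `x_1, …, x_n, z_1, …, z_κ` in groups `π j ∈ {0, …, κ}` and
polynomials `H_0, …, H_κ` over `F`. `tupK π m a H i` is the polynomial `∑_{π j = i} a_j X ^ (m_j) + H_i`;
it is `Φ` for `i = 0` and `l_i` for `i ≥ 1`. `NPQ π m i w` says that `w` is in the Newton polyhedron
(convex hull plus positive orthant) of the `m_j` with `π j = i` or `π j = 0`. `jacZ l` is the matrix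
`(∂ l_i / ∂ z_j)(0)`. `G = Φ + ∑ y_i l_i` is a polynomial in `x, y, z` with the exponents `v = expG π m` (and
those of `H`).

`Exc κ v σ`: `σ ≠ κ + 1`, and
* not `RootLev v σ`: no `a ∈ ℕ ^ (n + 2 κ)` with `N_a = ordA v a = min_j ⟨a, v j⟩ > 0` and `|a| / N_a = σ` has a
  face which contains a simplex which is not B1 (`NonB1 v True a`), a circuit (`Circuit v a`) or a point
  (`GoodPoint v a`);
* for no set `Y` of variables in which all `v j` have degree at most one `LocC v Y σ` holds. Here
  `LocC v Y σ` says that for every `a` such that all `a'` in its closed cone (`InCone v a a'`: `a'_i = 0` if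
  `a_i = 0`, and the face of `a'` contains the one of `a`) have the level `|a'| / N_{a'} = σ`, the exponents
  on the face of `a` are independent (`SimpL v a`), or the facets of the rays `a'` in this cone are B1 in a
  common direction (`B1L v i a'`: exactly one `v j` on the facet has `v j i ≠ 0`, and it has
  `v j i = 1`), or they are B1 in some directions in `Y`.

`StrongM E S Φ l`: for the power series `f(x)` over `ℂ` with `Φ = f(x) + ∑ q_i l_i` for some power series
`q_i`, that is the function `Φ|_V` in the coordinates `x` of `V = {l = 0}`, `f ≠ 0`, every `p.1 / p.2`, `p ∈ S`,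
is negative and, unless `E (κ - p.1 / p.2)`, a root of all `b` with `b(s) f ^ s = P(s) f ^ (s + 1)`, `P(s)` a
differential operator with power series as coefficients, polynomial in `s` (so of the local and the
global Bernstein-Sato polynomials of `Φ|_V`); and for all fields `K ⊃ k` the local motivic zeta
function `zetaV n Φ l = ∑_{N ≥ 1} [X_{N,1,0}] 𝕃 ^ (-n N) T ^ N` of `Φ|_V` at the origin (`JetV Φ l N`: the jets
`γ` of order `N` at the origin of `V` with `Φ(γ) = t ^ N`) is in the ring `ratRing K S` generated over
`K₀(Var_K)[𝕃⁻¹]` by `T` and the `1 / (1 - 𝕃 ^ a T ^ b)`, `(a, b) ∈ S`. -/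
theorem result (F : Type) [Field F] [Algebra F ℂ] {r n κ : ℕ} (hr : 0 < r)
    (π : Fin r → Fin (κ + 1)) (m : Fin r → Fin (n + κ) → ℕ)
    (hinj : ∀ j j', π j = π j' → m j = m j' → j = j') (hm : ∀ j, m j ≠ 0)
    (H : Fin (κ + 1) → MvPolynomial (Fin (n + κ)) F)
    (hH : ∀ i, ∀ w ∈ (H i).support, NPQ π m i w)
    (hvH : ∀ i, ∀ w ∈ (H i).support, ∀ j, π j = i → ¬ ∀ x, w x = m j x) :
    ∃ (g : MvPolynomial (Fin r) F) (S : Finset (ℤ × ℤ)), g ≠ 0 ∧ (∀ p ∈ S, 0 < p.2) ∧
      ∀ (k : Type) [Field k] [Algebra F k] [Algebra k ℂ] [IsScalarTower F k ℂ] (a : Fin r → k),
        aeval a g ≠ 0 → (jacZ fun i : Fin κ => tupK π m a H i.succ).det ≠ 0 →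
        (∀ i : Fin κ, coeff (Finsupp.single (Fin.natAdd n i) 1) (tupK π m a H 0) = 0) →
        StrongM (Exc κ (expG π m)) S (tupK π m a H 0) fun i => tupK π m a H i.succ :=
  cim hr π m hinj hm H hH hvH

end Pool.Agent.Results.MP_b91a16_ag.MotivicCompleteIntersections
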