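import Pool.Agent.J4.H18.TT.Main

/-!
# The motivic monodromy conjecture is true for all polynomials if it is true for trilinear forms

Let `k ⊂ ℂ` be a field and `K ⊃ k`. For polynomials `f` over `k` and points `x` with coordinates in `K`
we consider the local motivic zeta function `Z_{f,x}(T) ∈ 𝓜_K[[T]]` and the **local** Bernstein-Sato
polynomial `b_{f,x}`, which is the Bernstein-Sato polynomial of `f` on all sufficiently small open
neighbourhoods `X` of `x` in the affine space (it divides `b_f`). Three forms of the conjecture: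

* (MC) `Z_{f,x}(T) ∈ 𝓜_K[T, 1 / (1 - 𝕃 ^ a T ^ b)]_{(a, b) ∈ S}` for a finite set `S`, where for all
  `(a, b) ∈ S` the number `exp(2 π i a / b)` is an eigenvalue of the monodromy of `f` at points near `x` (for
  some integer `m` the number `a / b - m` is a root of `b_{f,x}`);
* (Reduced) the same for `(1 - 𝕃⁻¹ T) Z_{f,x}(T)`, where `a / b` is a root of `b_{f,x}(s) / (s + 1)`; this
  implies Q1 for `f` and `x` (and all open `X` with `x ∈ X`);
* (Strong, in `R`) Q1, with roots of `b_{f,x}`, for the image of `Z_{f,x}(T)` in `R[[T]]`, for a ring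
  homomorphism `ψ : 𝓜_K → R` such that all the `ψ(𝕃) ^ i - 1`, `i ≥ 1`, are invertible.

We prove that each of them is true for all polynomials if it is true for all trilinear forms
`∑ t_{i j l} x_i y_j z_l`. More precisely, the conjecture for all polynomials in `n` variables follows
from the conjecture for the trilinear forms of the formats `(n + 1) × m × m`, that is for the functions
`y ^ T A(x) z`, `A` an `m × m` matrix of linear forms in `n + 1` variables: for pencils of bilinear forms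
(`n = 1`), nets (`n = 2`, all plane curve singularities), webs (`n = 3`), ...

The use of the local Bernstein-Sato polynomial is essential here: the trilinear forms are homogeneous
and the points which are used are not the origin, while `b_T = b_{T,0}` for a homogeneous `T`.

Method. (1) `f = c_0 + ∑ c_i p_i`, where `p_1, p_2, …` are monomials and every `p_i` is a variable `x_{v(i)}`, or
`x_{v(i)} p_j` with `j > i`. An automorphism takes `f + ∑ y_i z_i` to
`c_0 + ∑ c_i z_i + ∑ y_i (z_i - p_i)`; the substitutions `y_j ↦ y_j - x_{v(i)} y_i`, one for every `i` with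
`p_i = x_{v(i)} p_j`, take it to `G = c_0 + ∑ c_i z_i + ∑ y_i (z_i - x_{v(i)} z_j)` (`z_j` is replaced by `1` if
`p_i = x_{v(i)}`), and all this is of degree at most one in `x`, in `y` and in `z`. (2) Let `T` be the
homogenisation of `G` with three further variables, one for each of the three groups. At the points
with `1` in these coordinates `T` is `G` times a unit in other coordinates; we compute the jets and carry
the local functional equations over. (3) The relation for the zeta functions at `x`, `(x, 0)`, … of `f`,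
`f + y z`, `f + y z + y' z'`; local functional equations: `(s + 1) c(s)` for `f` gives `(s + 1) c(s + 1)` for
`f + y z`. For (Strong, in `R`) four consecutive numbers of products `y_i z_i` are used.
-/

set_option autoImplicit false

namespace Pool.Agent.Results.MP_b91a16_ag.TrilinearFormsSuffice

open MvPolynomial Pool.Agent.W428.MOT
open Pool.Agent.H628R4.TP (IsBFunction weylS)
open Pool.Agent.J4.H25.MC (rat)

/-- The trilinear form `∑ t_{i j l} x_i y_j z_l`; the variables are
`x_1, …, x_a, y_1, …, y_b, z_1, …, z_c`. -/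
noncomputable def tri {k : Type} [Field k] {a b c : ℕ} (t : Fin a → Fin b → Fin c → k) :
    MvPolynomial (Fin (a + (b + c))) k :=
  ∑ i, ∑ j, ∑ l, C (t i j l) * (X (Fin.castAdd (b + c) i) * X (Fin.natAdd a (Fin.castAdd c j)) *
    X (Fin.natAdd a (Fin.natAdd b l)))

section
variable {k : Type} [Field k] [Algebra k ℂ] {K : Type} [Field K] [Algebra k K] {n : ℕ}

/-- A local functional equation of `f` at the point `x` (with coordinates in `K ⊃ k`):
`b(s) u f ^ s = P(s) f ^ (s + 1)` for all `s`, where `u` is a polynomial over `k` with `u(x) ≠ 0` and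
`P(s) = ∑_m P_m s ^ m` with `P_m` in the Weyl algebra. That is `b(s) f ^ s = (u⁻¹ P(s)) f ^ (s + 1)` on the open
neighbourhood `{u ≠ 0}` of `x`. The monic `b` of least degree is the local Bernstein-Sato polynomial
`b_{f,x}`. For `u = 1` this is the global functional equation `IsBFunction`. -/
def LocB (f : MvPolynomial (Fin n) k) (x : Fin n → K) (b : Polynomial ℂ) : Prop :=
  ∃ u : MvPolynomial (Fin n) k, aeval x u ≠ 0 ∧ ∃ P : ℕ →₀ weylS (Fin n), ∀ s : ℕ,
    C (b.eval (s : ℂ)) * (map (algebraMap k ℂ) u * map (algebraMap k ℂ) f ^ s) =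
      P.sum fun m Q => ((s : ℂ) ^ m) •
        (Q : Module.End ℂ (MvPolynomial (Fin n) ℂ)) (map (algebraMap k ℂ) f ^ (s + 1))

/-- `b > 0` and `a / b` is a root of the local Bernstein-Sato polynomial of `f` at `x`. -/
def Root (f : MvPolynomial (Fin n) k) (x : Fin n → K) (p : ℤ × ℤ) : Prop :=
  0 < p.2 ∧ ∀ b : Polynomial ℂ, LocB f x b → b.eval ((p.1 : ℂ) / p.2) = 0

/-- `b > 0` and `a / b - m` is a root of the local Bernstein-Sato polynomial of `f` at `x` for an integer
`m`. By the theorem of Malgrange and Kashiwara this says that `exp(2 π i a / b)` is an eigenvalue of the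
local monodromy of `f` at points near `x`. -/
def Eigen (f : MvPolynomial (Fin n) k) (x : Fin n → K) (p : ℤ × ℤ) : Prop :=
  0 < p.2 ∧ ∀ b : Polynomial ℂ, LocB f x b → ∃ m : ℤ, b.eval ((p.1 : ℂ) / p.2 - m) = 0

/-- `b > 0` and `a / b` is a root of the reduced local Bernstein-Sato polynomial
`b_{f,x}(s) / (s + 1)`. -/
def RedRoot (f : MvPolynomial (Fin n) k) (x : Fin n → K) (p : ℤ × ℤ) : Prop :=
  0 < p.2 ∧ ∀ c : Polynomial ℂ, LocB f x ((Polynomial.X + 1) * c) →
    c.eval ((p.1 : ℂ) / p.2) = 0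

/-- The motivic monodromy conjecture (form with eigenvalues of the monodromy) for `f` at the point `x`
over `K`. -/
def MC (f : MvPolynomial (Fin n) k) (K : Type) [Field K] [Algebra k K] (x : Fin n → K) : Prop :=
  ∃ S : Finset (ℤ × ℤ), (∀ p ∈ S, Eigen f x p) ∧ zeta (map (algebraMap k K) f) x ∈ ratRing K S

/-- Q1 (the form with roots of the Bernstein-Sato polynomial) for `f` at the point `x` over `K`. -/
def StrongMC (f : MvPolynomial (Fin n) k) (K : Type) [Field K] [Algebra k K] (x : Fin n → K) :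
    Prop :=
  ∃ S : Finset (ℤ × ℤ), (∀ p ∈ S, Root f x p) ∧ zeta (map (algebraMap k K) f) x ∈ ratRing K S

/-- The same for `(1 - 𝕃⁻¹ T) Z_{f,x}(T)` and the reduced local Bernstein-Sato polynomial of `f`. -/
def ReducedMC (f : MvPolynomial (Fin n) k) (K : Type) [Field K] [Algebra k K] (x : Fin n → K) :
    Prop :=
  ∃ S : Finset (ℤ × ℤ), (∀ p ∈ S, RedRoot f x p) ∧
    (1 - PowerSeries.C (((Lu K)⁻¹ : (MK K)ˣ) : MK K) * PowerSeries.X) *
      zeta (map (algebraMap k K) f) x ∈ ratRing K S

/-- Q1 for the image of `Z_{f,x}(T)` in `R[[T]]`; `rat u S` is the subring of `R[[T]]` generated over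
`R` by `T` and the `1 / (1 - u ^ a T ^ b)`, `(a, b) ∈ S`, here for `u = ψ(𝕃)`. -/
def StrongMCIn (f : MvPolynomial (Fin n) k) (K : Type) [Field K] [Algebra k K] {R : Type}
    [CommRing R] (ψ : MK K →+* R) (x : Fin n → K) : Prop :=
  ∃ S : Finset (ℤ × ℤ), (∀ p ∈ S, Root f x p) ∧
    PowerSeries.map ψ (zeta (map (algebraMap k K) f) x) ∈
      rat (Units.map (ψ : MK K →* R) (Lu K)) S

end

/-- **The motivic monodromy conjecture for all polynomials in `n` variables follows from the conjecture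
for the trilinear forms of the formats `(n + 1) × m × m`.**

First part: the statement for a single polynomial `f`; the trilinear forms `t m` depend only on `f`, the
points `P m` on `f` and `x`. Second part: for all polynomials in `n` variables over `k` and all points over
`K`. Third part: the equivalences for all numbers of variables and all formats. -/
theorem result (k : Type) [Field k] [Algebra k ℂ] :
    (∀ (n : ℕ), 0 < n → ∀ f : MvPolynomial (Fin n) k,
      ∃ (m₀ : ℕ) (t : ∀ m : ℕ, Fin (n + 1) → Fin (m + 1) → Fin (m + 1) → k),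
        ∀ (K : Type) [Field K] [Algebra k K] (x : Fin n → K),
          ∃ P : ∀ m : ℕ, Fin ((n + 1) + ((m + 1) + (m + 1))) → K, ∀ m ≥ m₀,
            (MC (tri (t m)) K (P m) → MC (tri (t (m + 1))) K (P (m + 1)) → MC f K x) ∧
            (ReducedMC (tri (t m)) K (P m) → ReducedMC (tri (t (m + 1))) K (P (m + 1)) →
              ReducedMC f K x) ∧
            ∀ (R : Type) [CommRing R] (ψ : MK K →+* R),
              (∀ i : ℕ, 1 ≤ i → IsUnit (ψ ((Lu K : (MK K)ˣ) : MK K) ^ i - 1)) →
              (∀ i < 4, StrongMCIn (tri (t (m + i))) K ψ (P (m + i))) → StrongMCIn f K ψ x) ∧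
    (∀ (n : ℕ) (K : Type) [Field K] [Algebra k K],
      ((∀ (m : ℕ) (t : Fin (n + 1) → Fin m → Fin m → k) (P : Fin ((n + 1) + (m + m)) → K),
          MC (tri t) K P) → ∀ (f : MvPolynomial (Fin n) k) (x : Fin n → K), MC f K x) ∧
      ((∀ (m : ℕ) (t : Fin (n + 1) → Fin m → Fin m → k) (P : Fin ((n + 1) + (m + m)) → K),
          ReducedMC (tri t) K P) →
        ∀ (f : MvPolynomial (Fin n) k) (x : Fin n → K), ReducedMC f K x) ∧
      ∀ (R : Type) [CommRing R] (ψ : MK K →+* R),
        (∀ i : ℕ, 1 ≤ i → IsUnit (ψ ((Lu K : (MK K)ˣ) : MK K) ^ i - 1)) →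
        (∀ (m : ℕ) (t : Fin (n + 1) → Fin m → Fin m → k) (P : Fin ((n + 1) + (m + m)) → K),
          StrongMCIn (tri t) K ψ P) →
        ∀ (f : MvPolynomial (Fin n) k) (x : Fin n → K), StrongMCIn f K ψ x) ∧
    (∀ (K : Type) [Field K] [Algebra k K],
      ((∀ (a b c : ℕ) (t : Fin a → Fin b → Fin c → k) (P : Fin (a + (b + c)) → K),
          MC (tri t) K P) ↔
        ∀ (n : ℕ) (f : MvPolynomial (Fin n) k) (x : Fin n → K), MC f K x) ∧
      ((∀ (a b c : ℕ) (t : Fin a → Fin b → Fin c → k) (P : Fin (a + (b + c)) → K),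
          ReducedMC (tri t) K P) ↔
        ∀ (n : ℕ) (f : MvPolynomial (Fin n) k) (x : Fin n → K), ReducedMC f K x) ∧
      (∀ (R : Type) [CommRing R] (ψ : MK K →+* R),
        (∀ i : ℕ, 1 ≤ i → IsUnit (ψ ((Lu K : (MK K)ˣ) : MK K) ^ i - 1)) →
        ((∀ (a b c : ℕ) (t : Fin a → Fin b → Fin c → k) (P : Fin (a + (b + c)) → K),
            StrongMCIn (tri t) K ψ P) ↔
          ∀ (n : ℕ) (f : MvPolynomial (Fin n) k) (x : Fin n → K), StrongMCIn f K ψ x)) ∧
      ∀ (n : ℕ) (f : MvPolynomial (Fin n) k) (x : Fin n → K),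
        (ReducedMC f K x → StrongMC f K x) ∧
        ∀ b : Polynomial ℂ, IsBFunction (map (algebraMap k ℂ) f) b → LocB f x b) := by
  have h0 : ∀ (f : MvPolynomial (Fin 0) k) (K : Type) [Field K] [Algebra k K] (x : Fin 0 → K),
      MC f K x ∧ ReducedMC f K x ∧ ∀ (R : Type) [CommRing R] (ψ : MK K →+* R),
        StrongMCIn f K ψ x := by
    intro f K _ _ x
    have hz := Pool.Agent.J4.H18.TT.zeta_zero_vars f x
    refine ⟨⟨∅, by simp, ?_⟩, ⟨∅, by simp, ?_⟩, fun R _ ψ => ⟨∅, by simp, ?_⟩⟩
    · rw [hz]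
      exact (ratRing K _).zero_mem
    · rw [hz, mul_zero]
      exact (ratRing K _).zero_mem
    · rw [hz, map_zero]
      exact (rat _ _).zero_mem
  have h1 : ∀ (n : ℕ), 0 < n → ∀ f : MvPolynomial (Fin n) k,
      ∃ (m₀ : ℕ) (t : ∀ m : ℕ, Fin (n + 1) → Fin (m + 1) → Fin (m + 1) → k),
        ∀ (K : Type) [Field K] [Algebra k K] (x : Fin n → K),
          ∃ P : ∀ m : ℕ, Fin ((n + 1) + ((m + 1) + (m + 1))) → K, ∀ m ≥ m₀,
            Pool.Agent.J4.H18.TT.Rel f m (tri (t m)) x (P m) := by
    intro n hn f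
    obtain ⟨m₀, h⟩ := Pool.Agent.J4.H18.TT.exists_tri hn f
    have h2 : ∀ m : ℕ, ∃ t : Fin (n + 1) → Fin (m + 1) → Fin (m + 1) → k,
        ∀ (K : Type) [Field K] [Algebra k K] (x : Fin n → K),
          ∃ P, m ≥ m₀ → Pool.Agent.J4.H18.TT.Rel f m (tri t) x P := by
      intro m
      by_cases hm : m ≥ m₀
      · obtain ⟨t, ht⟩ := h m hm
        refine ⟨t, fun K _ _ x => ?_⟩
        obtain ⟨P, hP⟩ := ht K x
        exact ⟨P, fun _ => hP⟩
      · exact ⟨fun _ _ _ => 0, fun K _ _ x => ⟨fun _ => 0, fun h' => absurd h' hm⟩⟩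
    choose t ht using h2
    refine ⟨m₀, t, fun K _ _ x => ?_⟩
    choose P hP using fun m => ht m K x
    exact ⟨P, fun m hm => hP m hm⟩
  have h2 : ∀ (n : ℕ) (K : Type) [Field K] [Algebra k K],
      ((∀ (m : ℕ) (t : Fin (n + 1) → Fin m → Fin m → k) (P : Fin ((n + 1) + (m + m)) → K),
          MC (tri t) K P) → ∀ (f : MvPolynomial (Fin n) k) (x : Fin n → K), MC f K x) ∧
      ((∀ (m : ℕ) (t : Fin (n + 1) → Fin m → Fin m → k) (P : Fin ((n + 1) + (m + m)) → K),
          ReducedMC (tri t) K P) →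
        ∀ (f : MvPolynomial (Fin n) k) (x : Fin n → K), ReducedMC f K x) ∧
      ∀ (R : Type) [CommRing R] (ψ : MK K →+* R),
        (∀ i : ℕ, 1 ≤ i → IsUnit (ψ ((Lu K : (MK K)ˣ) : MK K) ^ i - 1)) →
        (∀ (m : ℕ) (t : Fin (n + 1) → Fin m → Fin m → k) (P : Fin ((n + 1) + (m + m)) → K),
          StrongMCIn (tri t) K ψ P) →
        ∀ (f : MvPolynomial (Fin n) k) (x : Fin n → K), StrongMCIn f K ψ x := by
    intro n K _ _
    rcases Nat.eq_zero_or_pos n with rfl | hn
    · exact ⟨fun _ f x => (h0 f K x).1, fun _ f x => (h0 f K x).2.1,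
        fun R _ ψ _ _ f x => (h0 f K x).2.2 R ψ⟩
    · refine ⟨fun h f x => ?_, fun h f x => ?_, fun R _ ψ hψ h f x => ?_⟩
      · obtain ⟨m₀, t, h2⟩ := h1 n hn f
        obtain ⟨P, h3⟩ := h2 K x
        exact Pool.Agent.J4.H18.TT.wk_descent (h3 m₀ le_rfl) (h3 (m₀ + 1) (Nat.le_succ _))
          (h _ _ _) (h _ _ _)
      · obtain ⟨m₀, t, h2⟩ := h1 n hn f
        obtain ⟨P, h3⟩ := h2 K x
        exact Pool.Agent.J4.H18.TT.red_descent (h3 m₀ le_rfl) (h3 (m₀ + 1) (Nat.le_succ _))
          (h _ _ _) (h _ _ _)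
      · obtain ⟨m₀, t, h2⟩ := h1 n hn f
        obtain ⟨P, h3⟩ := h2 K x
        exact Pool.Agent.J4.H18.TT.loc_descent hψ (fun i => h3 (m₀ + i) (Nat.le_add_right _ _))
          fun i _ => h _ _ _
  refine ⟨?_, h2, ?_⟩
  · intro n hn f
    obtain ⟨m₀, t, h3⟩ := h1 n hn f
    refine ⟨m₀, t, fun K _ _ x => ?_⟩
    obtain ⟨P, h4⟩ := h3 K x
    refine ⟨P, fun m hm => ⟨fun a b => ?_, fun a b => ?_, fun R _ ψ hψ h => ?_⟩⟩
    · exact Pool.Agent.J4.H18.TT.wk_descent (h4 m hm) (h4 (m + 1) (by omega)) a b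
    · exact Pool.Agent.J4.H18.TT.red_descent (h4 m hm) (h4 (m + 1) (by omega)) a b
    · exact Pool.Agent.J4.H18.TT.loc_descent hψ (fun i => h4 (m + i) (by omega)) h
  · intro K _ _
    refine ⟨⟨fun h n => (h2 n K).1 fun m => h (n + 1) m m, fun h a b c t => h _ _⟩,
      ⟨fun h n => (h2 n K).2.1 fun m => h (n + 1) m m, fun h a b c t => h _ _⟩,
      fun R _ ψ hψ => ⟨fun h n => (h2 n K).2.2 R ψ hψ fun m => h (n + 1) m m,
        fun h a b c t => h _ _⟩, fun n f x => ⟨fun h => ?_, fun b hb => ?_⟩⟩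
    · exact Pool.Agent.J4.H18.TT.red_strong h
    · refine ⟨1, by rw [map_one]; exact one_ne_zero, ?_⟩
      obtain ⟨P, hP⟩ := hb
      refine ⟨P, fun s => ?_⟩
      rw [map_one, one_mul]
      exact hP s

end Pool.Agent.Results.MP_b91a16_ag.TrilinearFormsSuffice
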